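import Pool.Agent.Lib.MP_626926_al.Plane

/-!
Assembling the embeddings of `M_{2^ω}` into `Mon_ℓ(X)` and `Gr_ℓ(X)`.
-/

set_option autoImplicit false

namespace Pool.Agent.Lib.MP_626926_al

universe u v w

/-- A set of continuum many slopes. -/
theorem exists_slopes (ι : Type v) (hι : Cardinal.mk ι = Cardinal.continuum) :
    Nonempty (ι ↪ ℚ_[2]) := by
  have h := continuum_le_cardinal_of_nontriviallyNormedField ℚ_[2]
  rw [← Cardinal.lift_mk_le']
  rw [hι, Cardinal.lift_continuum]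
  calc Cardinal.continuum = Cardinal.lift.{v} Cardinal.continuum.{0} := Cardinal.lift_continuum.symm
    _ ≤ Cardinal.lift.{v} (Cardinal.mk ℚ_[2]) := Cardinal.lift_le.mpr h

/-- A criterion for embedding a lattice of the form `M_κ`, `κ = 2^ω`, into a partially ordered set
(meets and joins being read as greatest lower and least upper bounds). -/
theorem exists_embedding {L : Type v} [Lattice L] [BoundedOrder L]
    (hanti : IsAntichain (· ≤ ·) {x : L | x ≠ ⊥ ∧ x ≠ ⊤})
    (hcard : Cardinal.mk {x : L // x ≠ ⊥ ∧ x ≠ ⊤} = Cardinal.continuum)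
    {P : Type w} [PartialOrder P] (b t : P) (a : ℚ_[2] → P)
    (hb : ∀ θ, b < a θ) (ht : ∀ θ, a θ < t)
    (hinf : ∀ θ θ', θ ≠ θ' → ∀ c, c ≤ a θ → c ≤ a θ' → c ≤ b)
    (hsup : ∀ θ θ', θ ≠ θ' → ∀ c, a θ ≤ c → a θ' ≤ c → t ≤ c) :
    ∃ f : L → P, Function.Injective f ∧
      ∀ x y : L, IsGLB {f x, f y} (f (x ⊓ y)) ∧ IsLUB {f x, f y} (f (x ⊔ y)) := by
  classical
  obtain ⟨s⟩ := exists_slopes _ hcard
  have hbt : b < t := (hb 0).trans (ht 0)
  have hbotne : (⊥ : L) ≠ ⊤ := by
    intro h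
    have hne : Nonempty {x : L // x ≠ ⊥ ∧ x ≠ ⊤} := by
      rw [← Cardinal.mk_ne_zero_iff, hcard]
      exact Cardinal.continuum_ne_zero
    obtain ⟨x, hx1, hx2⟩ := hne
    apply hx1
    exact le_antisymm (h ▸ le_top) bot_le
  let f : L → P := fun x => if h : x ≠ ⊥ ∧ x ≠ ⊤ then a (s ⟨x, h⟩) else if x = ⊥ then b else t
  have fbot : f ⊥ = b := by
    have h : ¬ ((⊥ : L) ≠ ⊥ ∧ (⊥ : L) ≠ ⊤) := fun h => h.1 rfl
    simp only [f, dif_neg h, if_pos]
  have ftop : f ⊤ = t := by
    have h : ¬ ((⊤ : L) ≠ ⊥ ∧ (⊤ : L) ≠ ⊤) := fun h => h.2 rfl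
    simp only [f, dif_neg h]
    rw [if_neg hbotne.symm]
  have fmid : ∀ (x : L) (h : x ≠ ⊥ ∧ x ≠ ⊤), f x = a (s ⟨x, h⟩) := by
    intro x h
    simp only [f, dif_pos h]
  have hinj : Function.Injective f := by
    intro x y hxy
    by_cases hx : x ≠ ⊥ ∧ x ≠ ⊤
    · rw [fmid x hx] at hxy
      by_cases hy : y ≠ ⊥ ∧ y ≠ ⊤
      · rw [fmid y hy] at hxy
        by_cases hs : s ⟨x, hx⟩ = s ⟨y, hy⟩
        · exact congrArg Subtype.val (s.injective hs)
        · exfalso
          have h1 := hinf _ _ hs (a (s ⟨x, hx⟩)) le_rfl (le_of_eq hxy)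
          exact absurd (hb (s ⟨x, hx⟩)) (not_lt_of_ge h1)
      · exfalso
        have hy' : y = ⊥ ∨ y = ⊤ := by
          by_contra hcon
          push Not at hcon
          exact hy hcon
        rcases hy' with rfl | rfl
        · rw [fbot] at hxy
          exact (hb _).ne' hxy
        · rw [ftop] at hxy
          exact (ht _).ne hxy
    · have hx' : x = ⊥ ∨ x = ⊤ := by
        by_contra hcon
        push Not at hcon
        exact hx hcon
      by_cases hy : y ≠ ⊥ ∧ y ≠ ⊤
      · exfalso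
        rw [fmid y hy] at hxy
        rcases hx' with rfl | rfl
        · rw [fbot] at hxy
          exact (hb _).ne hxy
        · rw [ftop] at hxy
          exact (ht _).ne' hxy
      · have hy' : y = ⊥ ∨ y = ⊤ := by
          by_contra hcon
          push Not at hcon
          exact hy hcon
        rcases hx' with rfl | rfl <;> rcases hy' with rfl | rfl
        · rfl
        · rw [fbot, ftop] at hxy
          exact absurd hxy hbt.ne
        · rw [fbot, ftop] at hxy
          exact absurd hxy hbt.ne'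
        · rfl
  have hbf : ∀ x, b ≤ f x := by
    intro x
    by_cases hx : x ≠ ⊥ ∧ x ≠ ⊤
    · rw [fmid x hx]; exact (hb _).le
    · have hx' : x = ⊥ ∨ x = ⊤ := by
        by_contra hcon
        push Not at hcon
        exact hx hcon
      rcases hx' with rfl | rfl
      · rw [fbot]
      · rw [ftop]; exact hbt.le
  have hft : ∀ x, f x ≤ t := by
    intro x
    by_cases hx : x ≠ ⊥ ∧ x ≠ ⊤
    · rw [fmid x hx]; exact (ht _).le
    · have hx' : x = ⊥ ∨ x = ⊤ := by
        by_contra hcon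
        push Not at hcon
        exact hx hcon
      rcases hx' with rfl | rfl
      · rw [fbot]; exact hbt.le
      · rw [ftop]
  have hcmp : ∀ x y : L, x ≤ y → f x ≤ f y := by
    intro x y hxy
    by_cases hx : x = ⊥
    · rw [hx, fbot]; exact hbf y
    · by_cases hy : y = ⊤
      · rw [hy, ftop]; exact hft x
      · have hx2 : x ≠ ⊤ := by
          rintro rfl
          exact hy (top_le_iff.mp hxy)
        have hy2 : y ≠ ⊥ := by
          rintro rfl
          exact hx (le_bot_iff.mp hxy)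
        by_cases hne : x = y
        · rw [hne]
        · exact absurd hxy (hanti ⟨hx, hx2⟩ ⟨hy2, hy⟩ hne)
  refine ⟨f, hinj, fun x y => ⟨⟨?_, ?_⟩, ⟨?_, ?_⟩⟩⟩
  · rintro z (rfl | rfl)
    · exact hcmp _ _ inf_le_left
    · exact hcmp _ _ inf_le_right
  · intro c hc
    have hcx : c ≤ f x := hc (Set.mem_insert _ _)
    have hcy : c ≤ f y := hc (Set.mem_insert_of_mem _ rfl)
    by_cases hxy : x ≤ y
    · rw [inf_eq_left.mpr hxy]; exact hcx
    · by_cases hyx : y ≤ x
      · rw [inf_eq_right.mpr hyx]; exact hcy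
      · have hx : x ≠ ⊥ ∧ x ≠ ⊤ := ⟨fun h => hxy (h ▸ bot_le), fun h => hyx (h ▸ le_top)⟩
        have hy : y ≠ ⊥ ∧ y ≠ ⊤ := ⟨fun h => hyx (h ▸ bot_le), fun h => hxy (h ▸ le_top)⟩
        rw [fmid x hx] at hcx
        rw [fmid y hy] at hcy
        have hne : s ⟨x, hx⟩ ≠ s ⟨y, hy⟩ := by
          intro h
          have := congrArg Subtype.val (s.injective h)
          exact hxy (le_of_eq this)
        exact le_trans (hinf _ _ hne c hcx hcy) (hbf _)
  · rintro z (rfl | rfl)
    · exact hcmp _ _ le_sup_left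
    · exact hcmp _ _ le_sup_right
  · intro c hc
    have hcx : f x ≤ c := hc (Set.mem_insert _ _)
    have hcy : f y ≤ c := hc (Set.mem_insert_of_mem _ rfl)
    by_cases hxy : x ≤ y
    · rw [sup_eq_right.mpr hxy]; exact hcy
    · by_cases hyx : y ≤ x
      · rw [sup_eq_left.mpr hyx]; exact hcx
      · have hx : x ≠ ⊥ ∧ x ≠ ⊤ := ⟨fun h => hxy (h ▸ bot_le), fun h => hyx (h ▸ le_top)⟩
        have hy : y ≠ ⊥ ∧ y ≠ ⊤ := ⟨fun h => hyx (h ▸ bot_le), fun h => hxy (h ▸ le_top)⟩
        rw [fmid x hx] at hcx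
        rw [fmid y hy] at hcy
        have hne : s ⟨x, hx⟩ ≠ s ⟨y, hy⟩ := by
          intro h
          have := congrArg Subtype.val (s.injective h)
          exact hxy (le_of_eq this)
        exact le_trans (hft _) (hsup _ _ hne c hcx hcy)

theorem isClosed_bot : IsClosed (((⊥ : AddSubgroup V)) : Set V) := by
  rw [AddSubgroup.coe_bot]
  exact isClosed_singleton

theorem isClosed_top : IsClosed (((⊤ : AddSubgroup V)) : Set V) := by
  rw [AddSubgroup.coe_top]
  exact isClosed_univ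

theorem bot_lt_line (θ : ℚ_[2]) : (⊥ : AddSubgroup V) < line θ := by
  refine lt_of_le_of_ne bot_le (fun h => ?_)
  have h1 : ((1, θ) : V) ∈ (⊥ : AddSubgroup V) := by rw [h]; exact line_ne_bot θ
  rw [AddSubgroup.mem_bot] at h1
  exact one_ne_zero (congrArg Prod.fst h1)

theorem line_lt_top (θ : ℚ_[2]) : line θ < (⊤ : AddSubgroup V) := by
  refine lt_of_le_of_ne le_top (fun h => ?_)
  have h1 : ((0, 1) : V) ∈ line θ := by rw [h]; trivial
  rw [mem_line] at h1
  simp at h1

variable {X : Type u} (e : X₀ ≃ X)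

/-- The pointwise topology is the one given by any discrete topology on `X`. -/
theorem isClosed_image' [TopologicalSpace X] [DiscreteTopology X] {S : Set V} (hS : IsClosed S) :
    IsClosed (actX e '' S : Set (X → X)) := by
  have h := isClosed_image e hS
  have h2 : (pointwiseTopology X) = (Pi.topologicalSpace : TopologicalSpace (X → X)) := by
    unfold pointwiseTopology
    congr 1
    funext _
    exact (DiscreteTopology.eq_bot).symm
  rw [h2] at h
  exact h

/-- `M_{2^ω}` embeds into the lattice of local monoids. -/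
theorem monoid_embedding (X : Type u) [Countable X] [Infinite X] [TopologicalSpace X]
    [DiscreteTopology X] (L : Type v) [Lattice L] [BoundedOrder L]
    (hanti : IsAntichain (· ≤ ·) {x : L | x ≠ ⊥ ∧ x ≠ ⊤})
    (hcard : Cardinal.mk {x : L // x ≠ ⊥ ∧ x ≠ ⊤} = Cardinal.continuum) :
    ∃ f : L → {M : Set (X → X) // id ∈ M ∧ (∀ g ∈ M, ∀ h ∈ M, g ∘ h ∈ M) ∧ IsClosed M},
      Function.Injective f ∧
      ∀ x y : L, IsGLB {f x, f y} (f (x ⊓ y)) ∧ IsLUB {f x, f y} (f (x ⊔ y)) := by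
  obtain ⟨e⟩ : Nonempty (X₀ ≃ X) := nonempty_equiv_of_countable
  let F : (H : AddSubgroup V) → IsClosed (H : Set V) →
      {M : Set (X → X) // id ∈ M ∧ (∀ g ∈ M, ∀ h ∈ M, g ∘ h ∈ M) ∧ IsClosed M} := fun H hH =>
    ⟨actX e '' (H : Set V), ⟨0, H.zero_mem, actX_zero e⟩, by
      rintro _ ⟨v, hv, rfl⟩ _ ⟨w, hw, rfl⟩
      exact ⟨v + w, H.add_mem hv hw, actX_add e v w⟩, isClosed_image' e hH⟩
  have hFlt : ∀ (H K : AddSubgroup V) (hH : IsClosed (H : Set V)) (hK : IsClosed (K : Set V)),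
      H < K → F H hH < F K hK := by
    intro H K hH hK hHK
    refine lt_of_le_of_ne (Set.image_mono hHK.le) (fun h => ?_)
    have h2 : actX e '' (H : Set V) = actX e '' (K : Set V) := congrArg Subtype.val h
    have h3 := (actX_injective e).image_injective h2
    exact hHK.ne (SetLike.coe_injective h3)
  refine exists_embedding hanti hcard (F ⊥ isClosed_bot) (F ⊤ isClosed_top)
    (fun θ => F (line θ) (isClosed_line θ))
    (fun θ => hFlt _ _ isClosed_bot (isClosed_line θ) (bot_lt_line θ))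
    (fun θ => hFlt _ _ (isClosed_line θ) isClosed_top (line_lt_top θ)) ?_ ?_
  · intro θ θ' hθ c hc1 hc2 g hg
    obtain ⟨v, hv, rfl⟩ := hc1 hg
    obtain ⟨w, hw, hvw⟩ := hc2 hg
    have hvw' : w = v := actX_injective e hvw
    subst hvw'
    have h4 : w = 0 := line_inf hθ hv hw
    exact ⟨w, by rw [h4]; exact AddSubgroup.zero_mem _, rfl⟩
  · intro θ θ' hθ c hc1 hc2 g hg
    obtain ⟨v, -, rfl⟩ := hg
    obtain ⟨a, ha, b, hb, rfl⟩ := line_sup hθ v
    rw [actX_add]
    exact c.2.2.1 _ (hc1 ⟨a, ha, rfl⟩) _ (hc2 ⟨b, hb, rfl⟩)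

/-- `M_{2^ω}` embeds into the lattice of locally closed permutation groups. -/
theorem group_embedding (X : Type u) [Countable X] [Infinite X] [TopologicalSpace X]
    [DiscreteTopology X] (L : Type v) [Lattice L] [BoundedOrder L]
    (hanti : IsAntichain (· ≤ ·) {x : L | x ≠ ⊥ ∧ x ≠ ⊤})
    (hcard : Cardinal.mk {x : L // x ≠ ⊥ ∧ x ≠ ⊤} = Cardinal.continuum) :
    ∃ f : L → {G : Subgroup (Equiv.Perm X) // @IsClosed (Equiv.Perm X)
        (TopologicalSpace.induced (fun (σ : Equiv.Perm X) (x : X) => σ x) Pi.topologicalSpace)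
        (G : Set (Equiv.Perm X))},
      Function.Injective f ∧
      ∀ x y : L, IsGLB {f x, f y} (f (x ⊓ y)) ∧ IsLUB {f x, f y} (f (x ⊔ y)) := by
  obtain ⟨e⟩ : Nonempty (X₀ ≃ X) := nonempty_equiv_of_countable
  let F : (H : AddSubgroup V) → IsClosed (H : Set V) →
      {G : Subgroup (Equiv.Perm X) // @IsClosed (Equiv.Perm X)
        (TopologicalSpace.induced (fun (σ : Equiv.Perm X) (x : X) => σ x) Pi.topologicalSpace)
        (G : Set (Equiv.Perm X))} := fun H hH =>
    ⟨{ carrier := permX e '' (H : Set V)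
       one_mem' := ⟨0, H.zero_mem, permX_zero e⟩
       mul_mem' := by
         rintro _ _ ⟨v, hv, rfl⟩ ⟨w, hw, rfl⟩
         exact ⟨v + w, H.add_mem hv hw, permX_add e v w⟩
       inv_mem' := by
         rintro _ ⟨v, hv, rfl⟩
         exact ⟨-v, H.neg_mem hv, permX_neg e v⟩ }, by
      have h : (permX e '' (H : Set V)) =
          (fun (σ : Equiv.Perm X) (x : X) => σ x) ⁻¹' (actX e '' (H : Set V)) := by
        ext σ
        constructor
        · rintro ⟨v, hv, rfl⟩
          exact ⟨v, hv, rfl⟩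
        · rintro ⟨v, hv, hσ⟩
          refine ⟨v, hv, ?_⟩
          ext x
          exact congrFun hσ x
      let _ : TopologicalSpace (Equiv.Perm X) :=
        TopologicalSpace.induced (fun (σ : Equiv.Perm X) (x : X) => σ x) Pi.topologicalSpace
      change IsClosed (permX e '' (H : Set V))
      rw [h]
      exact isClosed_induced_iff.mpr ⟨_, isClosed_image' e hH, rfl⟩⟩
  have hFmem : ∀ (H : AddSubgroup V) (hH : IsClosed (H : Set V)) (σ : Equiv.Perm X),
      σ ∈ (F H hH).1 ↔ ∃ v ∈ H, permX e v = σ := fun H hH σ => Iff.rfl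
  have hFlt : ∀ (H K : AddSubgroup V) (hH : IsClosed (H : Set V)) (hK : IsClosed (K : Set V)),
      H < K → F H hH < F K hK := by
    intro H K hH hK hHK
    refine lt_of_le_of_ne (a := F H hH) (b := F K hK) ?_ (fun h => ?_)
    · rintro σ ⟨v, hv, rfl⟩
      exact ⟨v, hHK.le hv, rfl⟩
    · obtain ⟨v, hvK, hvH⟩ := Set.exists_of_ssubset hHK
      have h2 : permX e v ∈ (F K hK).1 := ⟨v, hvK, rfl⟩
      rw [← h] at h2
      obtain ⟨w, hw, hwv⟩ := h2
      rw [permX_injective e hwv] at hw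
      exact hvH hw
  refine exists_embedding hanti hcard (F ⊥ isClosed_bot) (F ⊤ isClosed_top)
    (fun θ => F (line θ) (isClosed_line θ))
    (fun θ => hFlt _ _ isClosed_bot (isClosed_line θ) (bot_lt_line θ))
    (fun θ => hFlt _ _ (isClosed_line θ) isClosed_top (line_lt_top θ)) ?_ ?_
  · intro θ θ' hθ c hc1 hc2 g hg
    obtain ⟨v, hv, rfl⟩ := hc1 hg
    obtain ⟨w, hw, hvw⟩ := hc2 hg
    have hvw' : w = v := permX_injective e hvw
    subst hvw'
    have h4 : w = 0 := line_inf hθ hv hw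
    exact ⟨w, by rw [h4]; exact AddSubgroup.zero_mem _, rfl⟩
  · intro θ θ' hθ c hc1 hc2 g hg
    obtain ⟨v, -, rfl⟩ := hg
    obtain ⟨a, ha, b, hb, rfl⟩ := line_sup hθ v
    rw [permX_add]
    exact c.1.mul_mem (hc1 ⟨a, ha, rfl⟩) (hc2 ⟨b, hb, rfl⟩)

end Pool.Agent.Lib.MP_626926_al
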