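import Mathlib

/-!
The action of the plane `ℚ_[2] × ℚ_[2]` on a countable set: translations of the countably many
cosets of the compact open subgroups `U k`, and the proof that closed subsets of the plane give
closed sets of self-maps.
-/

set_option autoImplicit false

namespace Pool.Agent.Lib.MP_626926_al

universe u

/-- The topology of pointwise convergence on `X → X`, where `X` is discrete. -/
@[reducible] def pointwiseTopology (X : Type u) : TopologicalSpace (X → X) :=
  @Pi.topologicalSpace X (fun _ => X) (fun _ => ⊥)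

/-- The `2`-adic plane. -/
abbrev V : Type := ℚ_[2] × ℚ_[2]

/-- The neighbourhood `{v | ‖v‖ ≤ 2^{-k}}` of zero in the plane, a compact open subgroup. -/
noncomputable def U (k : ℕ) : AddSubgroup V where
  carrier := {v | ‖v.1‖ ≤ (1 / 2 : ℝ) ^ k ∧ ‖v.2‖ ≤ (1 / 2 : ℝ) ^ k}
  zero_mem' := by
    constructor <;> simp
  add_mem' := by
    intro a b ha hb
    refine ⟨?_, ?_⟩
    · exact le_trans (Padic.nonarchimedean a.1 b.1) (max_le ha.1 hb.1)
    · exact le_trans (Padic.nonarchimedean a.2 b.2) (max_le ha.2 hb.2)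
  neg_mem' := by
    intro a ha
    refine ⟨?_, ?_⟩
    · have := ha.1
      simpa using this
    · have := ha.2
      simpa using this

theorem mem_U {k : ℕ} {v : V} : v ∈ U k ↔ ‖v.1‖ ≤ (1 / 2 : ℝ) ^ k ∧ ‖v.2‖ ≤ (1 / 2 : ℝ) ^ k :=
  Iff.rfl

theorem mem_U_norm {k : ℕ} {v : V} : v ∈ U k ↔ ‖v‖ ≤ (1 / 2 : ℝ) ^ k := by
  rw [mem_U, Prod.norm_def, max_le_iff]

theorem U_anti {k l : ℕ} (h : k ≤ l) : U l ≤ U k := by
  intro v hv
  rw [mem_U_norm] at hv ⊢
  exact le_trans hv (pow_le_pow_of_le_one (by norm_num) (by norm_num) h)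

/-- The countable set on which the plane acts: all cosets of all `U k`. -/
abbrev X₀ : Type := Σ k : ℕ, V ⧸ U k

instance countable_quot (k : ℕ) : Countable (V ⧸ U k) := by
  have hs : Function.Surjective (fun q : ℚ × ℚ => (QuotientAddGroup.mk ((q.1 : ℚ_[2]), (q.2 : ℚ_[2])) : V ⧸ U k)) := by
    intro x
    obtain ⟨v, rfl⟩ := QuotientAddGroup.mk_surjective x
    have hk : (0 : ℝ) < (1 / 2 : ℝ) ^ k := by positivity
    obtain ⟨q1, hq1⟩ := Padic.rat_dense 2 v.1 hk
    obtain ⟨q2, hq2⟩ := Padic.rat_dense 2 v.2 hk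
    refine ⟨(q1, q2), ?_⟩
    rw [QuotientAddGroup.eq]
    rw [mem_U]
    constructor
    · have : (-((q1 : ℚ_[2]), (q2 : ℚ_[2])) + v).1 = v.1 - q1 := by
        simp; ring
      rw [this]; exact hq1.le
    · have : (-((q1 : ℚ_[2]), (q2 : ℚ_[2])) + v).2 = v.2 - q2 := by
        simp; ring
      rw [this]; exact hq2.le
  exact hs.countable

instance infinite_X₀ : Infinite X₀ := by
  refine Infinite.of_injective (fun k : ℕ => (⟨k, 0⟩ : X₀)) ?_
  intro a b h
  exact congrArg Sigma.fst h

/-- Translation by `v` on the set of cosets. -/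
noncomputable def act (v : V) : X₀ → X₀ := fun x => ⟨x.1, (QuotientAddGroup.mk v : V ⧸ U x.1) + x.2⟩

theorem act_zero : act 0 = id := by
  funext x
  simp only [act, QuotientAddGroup.mk_zero, zero_add, id]

theorem act_add (v w : V) : act (v + w) = act v ∘ act w := by
  funext x
  simp only [act, Function.comp, QuotientAddGroup.mk_add, add_assoc]
  rfl

theorem act_eq_iff {v w : V} {k : ℕ} {x : V ⧸ U k} :
    act v ⟨k, x⟩ = act w ⟨k, x⟩ ↔ v - w ∈ U k := by
  simp only [act]
  rw [Sigma.mk.injEq]
  simp only [heq_eq_eq, true_and, add_left_inj]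
  rw [QuotientAddGroup.eq]
  constructor
  · intro h
    have := (U k).neg_mem h
    convert this using 1
    abel
  · intro h
    have := (U k).neg_mem h
    convert this using 1
    abel

theorem eq_of_forall_sub_mem {v w : V} (h : ∀ k, v - w ∈ U k) : v = w := by
  have h2 : ‖v - w‖ ≤ 0 := by
    refine ge_of_tendsto' (tendsto_pow_atTop_nhds_zero_of_lt_one (by norm_num : (0:ℝ) ≤ 1/2) (by norm_num)) ?_
    intro k
    exact mem_U_norm.mp (h k)
  have h3 : v - w = 0 := by
    rw [← norm_le_zero_iff]; exact h2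
  exact sub_eq_zero.mp h3

theorem act_injective : Function.Injective act := by
  intro v w h
  apply eq_of_forall_sub_mem
  intro k
  rw [← act_eq_iff (x := 0), h]

/-- Translation by `v` transported to a countably infinite set `X` by a bijection. -/
noncomputable def actX {X : Type u} (e : X₀ ≃ X) (v : V) : X → X := fun x => e (act v (e.symm x))

variable {X : Type u} (e : X₀ ≃ X)

theorem actX_zero : actX e 0 = id := by
  funext x; simp [actX, act_zero]

theorem actX_add (v w : V) : actX e (v + w) = actX e v ∘ actX e w := by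
  funext x; simp [actX, act_add]

theorem actX_injective : Function.Injective (actX e) := by
  intro v w h
  apply act_injective
  funext x
  have := congrFun h (e x)
  simpa [actX] using this

/-- A function in the closure (for the pointwise topology) of a set `A` of functions agrees with a
member of `A` at any two given points. -/
theorem exists_agree {A : Set (X → X)} {f : X → X}
    (hf : f ∈ @closure (X → X) (pointwiseTopology X) A) (x y : X) :
    ∃ g ∈ A, g x = f x ∧ g y = f y := by
  let _ : TopologicalSpace X := ⊥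
  have _hd : DiscreteTopology X := ⟨rfl⟩
  have hopen : IsOpen {g : X → X | g x = f x ∧ g y = f y} := by
    have h1 : IsOpen ((fun g : X → X => g x) ⁻¹' {f x}) :=
      (isOpen_discrete _).preimage (continuous_apply x)
    have h2 : IsOpen ((fun g : X → X => g y) ⁻¹' {f y}) :=
      (isOpen_discrete _).preimage (continuous_apply y)
    exact h1.inter h2
  obtain ⟨g, hg1, hg2⟩ := mem_closure_iff.mp hf _ hopen ⟨rfl, rfl⟩
  exact ⟨g, hg2, hg1⟩

/-- The key fact: closed subsets of the plane act as closed sets of self-maps of `X`. -/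
theorem isClosed_image {S : Set V} (hS : IsClosed S) :
    @IsClosed (X → X) (pointwiseTopology X) (actX e '' S) := by
  have key : @closure (X → X) (pointwiseTopology X) (actX e '' S) ⊆ actX e '' S := by
    intro f hf
    -- base points
    have hk : ∀ k : ℕ, ∃ v : V, v ∈ S ∧ f (e ⟨k, 0⟩) = actX e v (e ⟨k, 0⟩) := by
      intro k
      obtain ⟨g, ⟨v, hv, rfl⟩, h1, _⟩ := exists_agree hf (e ⟨k, 0⟩) (e ⟨k, 0⟩)
      exact ⟨v, hv, h1.symm⟩
    choose v hvS hv using hk
    have hagree : ∀ (k : ℕ) (x : V ⧸ U k) , ∀ l : ℕ, ∃ s ∈ S, s - v l ∈ U l ∧ f (e ⟨k, x⟩) = actX e s (e ⟨k, x⟩) := by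
      intro k x l
      obtain ⟨g, ⟨s, hs, rfl⟩, h1, h2⟩ := exists_agree hf (e ⟨k, x⟩) (e ⟨l, 0⟩)
      refine ⟨s, hs, ?_, h1.symm⟩
      rw [hv l] at h2
      have h3 : act s ⟨l, 0⟩ = act (v l) ⟨l, 0⟩ := by
        have := e.injective (by simpa [actX] using h2)
        exact this
      exact act_eq_iff.mp h3
    have hcompat : ∀ k l : ℕ, k ≤ l → v k - v l ∈ U k := by
      intro k l hkl
      obtain ⟨s, hs, h1, h2⟩ := hagree k 0 l
      rw [hv k] at h2
      have h3 : act (v k) ⟨k, 0⟩ = act s ⟨k, 0⟩ := by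
        have := e.injective (by simpa [actX] using h2)
        exact this
      have h4 := act_eq_iff.mp h3
      have h5 := (U k).add_mem h4 (U_anti hkl h1)
      convert h5 using 1
      abel
    have hdist : ∀ k l : ℕ, k ≤ l → dist (v k) (v l) ≤ (1 / 2 : ℝ) ^ k := by
      intro k l hkl
      rw [dist_eq_norm]
      exact mem_U_norm.mp (hcompat k l hkl)
    have hcauchy : CauchySeq v := by
      refine cauchySeq_of_le_tendsto_0 (fun k => 2 * (1 / 2 : ℝ) ^ k) ?_ ?_
      · intro n m N hn hm
        have h1 := hdist N n hn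
        have h2 := hdist N m hm
        calc dist (v n) (v m) ≤ dist (v n) (v N) + dist (v N) (v m) := dist_triangle _ _ _
          _ ≤ (1 / 2 : ℝ) ^ N + (1 / 2 : ℝ) ^ N := by
              gcongr
              rw [dist_comm]; exact h1
          _ = 2 * (1 / 2 : ℝ) ^ N := by ring
      · have := (tendsto_pow_atTop_nhds_zero_of_lt_one (by norm_num : (0:ℝ) ≤ 1/2) (by norm_num)).const_mul (2:ℝ)
        simpa using this
    obtain ⟨w, hw⟩ := cauchySeq_tendsto_of_complete hcauchy
    have hwS : w ∈ S := hS.mem_of_tendsto hw (Filter.Eventually.of_forall hvS)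
    have hwk : ∀ k, v k - w ∈ U k := by
      intro k
      rw [mem_U_norm, ← dist_eq_norm]
      have : Filter.Tendsto (fun l => dist (v k) (v l)) Filter.atTop (nhds (dist (v k) w)) :=
        Filter.Tendsto.dist tendsto_const_nhds hw
      refine le_of_tendsto this ?_
      filter_upwards [Filter.eventually_ge_atTop k] with l hl
      exact hdist k l hl
    refine ⟨w, hwS, ?_⟩
    funext y
    obtain ⟨⟨k, x⟩, rfl⟩ := e.surjective y
    obtain ⟨s, hs, h1, h2⟩ := hagree k x k
    rw [h2]
    have h3 : act w ⟨k, x⟩ = act s ⟨k, x⟩ := by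
      rw [act_eq_iff]
      have h4 := (U k).add_mem h1 (hwk k)
      have h5 := (U k).neg_mem h4
      convert h5 using 1
      abel
    simp only [actX, Equiv.symm_apply_apply, h3]
  let _ : TopologicalSpace (X → X) := pointwiseTopology X
  exact isClosed_of_closure_subset key

/-- The permutation of `X` given by translation by `v`. -/
noncomputable def permX (v : V) : Equiv.Perm X where
  toFun := actX e v
  invFun := actX e (-v)
  left_inv x := by
    have h : actX e (-v) (actX e v x) = (actX e (-v) ∘ actX e v) x := rfl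
    rw [h, ← actX_add]
    simp [actX_zero]
  right_inv x := by
    have h : actX e v (actX e (-v) x) = (actX e v ∘ actX e (-v)) x := rfl
    rw [h, ← actX_add]
    simp [actX_zero]

theorem permX_add (v w : V) : permX e (v + w) = permX e v * permX e w := by
  ext x
  exact congrFun (actX_add e v w) x

theorem permX_zero : permX e 0 = 1 := by
  ext x
  exact congrFun (actX_zero e) x

theorem permX_injective : Function.Injective (permX e) := by
  intro v w h
  apply actX_injective e
  funext x
  exact congrArg (fun σ : Equiv.Perm X => σ x) h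

theorem permX_neg (v : V) : permX e (-v) = (permX e v)⁻¹ := by
  rw [eq_inv_iff_mul_eq_one, ← permX_add, neg_add_cancel, permX_zero]

/-- The line of slope `θ` in the plane. -/
def line (θ : ℚ_[2]) : AddSubgroup V where
  carrier := {v | v.2 = θ * v.1}
  zero_mem' := by simp
  add_mem' := by
    intro a b ha hb
    simp only [Set.mem_ofPred_eq, Prod.snd_add, Prod.fst_add] at *
    rw [ha, hb]; ring
  neg_mem' := by
    intro a ha
    simp only [Set.mem_ofPred_eq, Prod.snd_neg, Prod.fst_neg] at *
    rw [ha]; ring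

theorem mem_line {θ : ℚ_[2]} {v : V} : v ∈ line θ ↔ v.2 = θ * v.1 := Iff.rfl

theorem isClosed_line (θ : ℚ_[2]) : IsClosed (line θ : Set V) :=
  isClosed_eq continuous_snd (continuous_const.mul continuous_fst)

theorem line_inf {θ θ' : ℚ_[2]} (h : θ ≠ θ') {v : V} (h1 : v ∈ line θ) (h2 : v ∈ line θ') : v = 0 := by
  rw [mem_line] at h1 h2
  have h3 : (θ - θ') * v.1 = 0 := by
    rw [sub_mul, ← h1, ← h2, sub_self]
  have h4 : v.1 = 0 := by
    rcases mul_eq_zero.mp h3 with h5 | h5
    · exact absurd (sub_eq_zero.mp h5) h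
    · exact h5
  have h5 : v.2 = 0 := by rw [h1, h4, mul_zero]
  exact Prod.ext h4 h5

theorem line_sup {θ θ' : ℚ_[2]} (h : θ ≠ θ') (v : V) :
    ∃ a ∈ line θ, ∃ b ∈ line θ', v = a + b := by
  have hne : θ' - θ ≠ 0 := fun h5 => h (sub_eq_zero.mp h5).symm
  set y : ℚ_[2] := (v.2 - θ * v.1) / (θ' - θ) with hy
  refine ⟨(v.1 - y, θ * (v.1 - y)), rfl, (y, θ' * y), rfl, ?_⟩
  refine Prod.ext ?_ ?_
  · simp
  · simp only [Prod.snd_add]
    have : (θ' - θ) * y = v.2 - θ * v.1 := by
      rw [hy]; field_simp
    linear_combination -this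

theorem line_ne_bot (θ : ℚ_[2]) : ((1, θ) : V) ∈ line θ := by
  rw [mem_line]; simp

end Pool.Agent.Lib.MP_626926_al
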